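import Pool.Agent.Helper72.CM.Calc

/-!
# Project MM, route CM: calculus of the classes `HB k K`
-/

namespace CM72

open CM

variable {n : ℕ}

theorem HB_zero_iff {K : ℝ} {f : E n → ℝ} : HB 0 K f ↔ Continuous f ∧ H0 K f := by
  constructor
  · rintro ⟨h1, h2⟩
    exact ⟨h1.continuous, h2 [] (by simp)⟩
  · rintro ⟨h1, h2⟩
    refine ⟨contDiff_zero.2 h1, fun l hl => ?_⟩
    have : l = [] := by simpa using hl
    subst this
    exact h2

theorem HB_succ_iff {k : ℕ} {K : ℝ} {f : E n → ℝ} :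
    HB (k + 1) K f ↔ ContDiff ℝ (k + 1 : ℕ) f ∧ H0 K f ∧ ∀ i, HB k K (pd i f) := by
  constructor
  · rintro ⟨h1, h2⟩
    refine ⟨h1, h2 [] (by simp), fun i => ⟨contDiff_pd h1 i, fun l hl => ?_⟩⟩
    have := h2 (l ++ [i]) (by simp; omega)
    rwa [pdl_snoc] at this
  · rintro ⟨h1, h2, h3⟩
    refine ⟨h1, fun l hl => ?_⟩
    rcases List.eq_nil_or_concat l with rfl | ⟨l', i, rfl⟩
    · exact h2
    · rw [List.concat_eq_append, pdl_snoc]
      refine (h3 i).2 l' ?_
      simp at hl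
      omega

theorem HB_H0 {k : ℕ} {K : ℝ} {f : E n → ℝ} (h : HB k K f) : H0 K f := h.2 [] (by simp)

theorem HB_nonneg {k : ℕ} {K : ℝ} {f : E n → ℝ} (h : HB k K f) : 0 ≤ K := H0_nonneg (HB_H0 h)

theorem HB_mono {k : ℕ} {K K' : ℝ} {f : E n → ℝ} (h : HB k K f) (hK : K ≤ K') : HB k K' f :=
  ⟨h.1, fun l hl => H0_mono (h.2 l hl) hK⟩

theorem HB_of_le {k m : ℕ} {K : ℝ} {f : E n → ℝ} (h : HB k K f) (hm : m ≤ k) : HB m K f :=
  ⟨h.1.of_le (by exact_mod_cast hm), fun l hl => h.2 l (hl.trans hm)⟩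

theorem HB_congr {k : ℕ} {K : ℝ} {f g : E n → ℝ} (h : HB k K f) (he : ∀ x, f x = g x) :
    HB k K g := by
  have : f = g := funext he
  exact this ▸ h

theorem HB_pd {k : ℕ} {K : ℝ} {f : E n → ℝ} (h : HB (k + 1) K f) (i : Fin n) :
    HB k K (pd i f) := (HB_succ_iff.1 h).2.2 i

theorem HB_differentiable {k : ℕ} {K : ℝ} {f : E n → ℝ} (h : HB (k + 1) K f) :
    Differentiable ℝ f := differentiable_of h.1

theorem HB_const (k : ℕ) (c : ℝ) {K : ℝ} (h : |c| ≤ K) : HB k K (fun _ : E n => c) := by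
  have hK : 0 ≤ K := (abs_nonneg _).trans h
  induction k generalizing c with
  | zero => exact HB_zero_iff.2 ⟨continuous_const, H0_const c h⟩
  | succ k ih =>
    refine HB_succ_iff.2 ⟨contDiff_const, H0_const c h, fun i => ?_⟩
    rw [pd_const]
    exact ih 0 (by simpa using hK)

theorem HB_add {k : ℕ} {K K' : ℝ} {f g : E n → ℝ} (hf : HB k K f) (hg : HB k K' g) :
    HB k (K + K') (fun x => f x + g x) := by
  induction k generalizing f g with
  | zero =>
    rw [HB_zero_iff] at *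
    exact ⟨hf.1.add hg.1, H0_add hf.2 hg.2⟩
  | succ k ih =>
    have h1 := HB_differentiable hf
    have h2 := HB_differentiable hg
    rw [HB_succ_iff] at *
    refine ⟨hf.1.add hg.1, H0_add hf.2.1 hg.2.1, fun i => ?_⟩
    rw [pd_add h1 h2]
    exact ih (hf.2.2 i) (hg.2.2 i)

theorem HB_neg {k : ℕ} {K : ℝ} {f : E n → ℝ} (hf : HB k K f) : HB k K (fun x => - f x) := by
  induction k generalizing f with
  | zero =>
    rw [HB_zero_iff] at *
    exact ⟨hf.1.neg, H0_neg hf.2⟩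
  | succ k ih =>
    rw [HB_succ_iff] at *
    refine ⟨hf.1.neg, H0_neg hf.2.1, fun i => ?_⟩
    rw [pd_neg]
    exact ih (hf.2.2 i)

theorem HB_sub {k : ℕ} {K K' : ℝ} {f g : E n → ℝ} (hf : HB k K f) (hg : HB k K' g) :
    HB k (K + K') (fun x => f x - g x) :=
  HB_congr (HB_add hf (HB_neg hg)) fun x => by ring

theorem HB_const_mul {k : ℕ} {K : ℝ} {f : E n → ℝ} (c : ℝ) (hf : HB k K f) :
    HB k (|c| * K) (fun x => c * f x) := by
  induction k generalizing f with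
  | zero =>
    rw [HB_zero_iff] at *
    exact ⟨hf.1.const_mul c, H0_const_mul c hf.2⟩
  | succ k ih =>
    have h1 := HB_differentiable hf
    rw [HB_succ_iff] at *
    refine ⟨contDiff_const.mul hf.1, H0_const_mul c hf.2.1, fun i => ?_⟩
    rw [pd_const_mul h1]
    exact ih (hf.2.2 i)

theorem HB_mul {k : ℕ} {K K' : ℝ} {f g : E n → ℝ} (hf : HB k K f) (hg : HB k K' g) :
    HB k (2 ^ (k + 1) * (K * K')) (fun x => f x * g x) := by
  induction k generalizing f g with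
  | zero =>
    rw [HB_zero_iff] at *
    refine ⟨hf.1.mul hg.1, H0_mono (H0_mul hf.2 hg.2) ?_⟩
    apply le_of_eq
    ring
  | succ k ih =>
    have h1 := HB_differentiable hf
    have h2 := HB_differentiable hg
    have hK := HB_nonneg hf
    have hK' := HB_nonneg hg
    have hf' := HB_of_le hf (Nat.le_succ k)
    have hg' := HB_of_le hg (Nat.le_succ k)
    rw [HB_succ_iff] at *
    refine ⟨hf.1.mul hg.1, H0_mono (H0_mul hf.2.1 hg.2.1) ?_, fun i => ?_⟩
    · have h3 : (2 : ℝ) ≤ 2 ^ (k + 1 + 1) := by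
        have : (1 : ℝ) ≤ 2 ^ (k + 1) := one_le_pow₀ (by norm_num)
        rw [pow_succ]
        linarith
      have := mul_le_mul_of_nonneg_right h3 (mul_nonneg hK hK')
      linarith
    · rw [pd_mul h1 h2]
      refine HB_mono (HB_add (ih (hf.2.2 i) hg') (ih hf' (hg.2.2 i))) ?_
      apply le_of_eq
      ring

theorem HB_mul' {k : ℕ} {K K' B : ℝ} {f g : E n → ℝ} (hf : HB k K f) (hg : HB k K' g)
    (hB : 2 ^ (k + 1) * (K * K') ≤ B) : HB k B (fun x => f x * g x) :=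
  HB_mono (HB_mul hf hg) hB

theorem HB_sum {ι : Type*} (s : Finset ι) {k : ℕ} {K : ι → ℝ} {f : ι → E n → ℝ}
    (h : ∀ a ∈ s, HB k (K a) (f a)) : HB k (∑ a ∈ s, K a) (fun x => ∑ a ∈ s, f a x) := by
  classical
  induction s using Finset.induction_on with
  | empty =>
    simp only [Finset.sum_empty]
    exact HB_const k 0 (by simp)
  | insert a s ha ih =>
    have h1 := h a (Finset.mem_insert_self a s)
    have h2 := ih (fun b hb => h b (Finset.mem_insert_of_mem hb))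
    have := HB_add h1 h2
    rw [Finset.sum_insert ha]
    exact HB_congr this fun x => by rw [Finset.sum_insert ha]

theorem HB_prod {ι : Type*} (s : Finset ι) (k : ℕ) (K : ℝ) : ∃ C : ℝ, 0 ≤ C ∧
    ∀ f : ι → E n → ℝ, (∀ a ∈ s, HB k K (f a)) → HB k C (fun x => ∏ a ∈ s, f a x) := by
  classical
  induction s using Finset.induction_on with
  | empty =>
    refine ⟨1, zero_le_one, fun f _ => ?_⟩
    simp only [Finset.prod_empty]
    exact HB_const k 1 (by simp)
  | insert a s ha ih =>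
    obtain ⟨C, hC, ih⟩ := ih
    refine ⟨max 0 (2 ^ (k + 1) * (K * C)), le_max_left _ _, fun f hf => ?_⟩
    have h1 := hf a (Finset.mem_insert_self a s)
    have h2 := ih f (fun b hb => hf b (Finset.mem_insert_of_mem hb))
    exact HB_congr (HB_mul' h1 h2 (le_max_right _ _)) fun x => by rw [Finset.prod_insert ha]

theorem HB_inv (k : ℕ) (c K : ℝ) (hc : 0 < c) : ∃ C : ℝ, 0 ≤ C ∧ ∀ f : E n → ℝ,
    HB k K f → (∀ x, c ≤ f x) → HB k C (fun x => (f x)⁻¹) := by
  induction k with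
  | zero =>
    refine ⟨|c⁻¹ + (c⁻¹ * c⁻¹) * K|, abs_nonneg _, fun f hf h => ?_⟩
    rw [HB_zero_iff] at *
    exact ⟨hf.1.inv₀ fun x => (hc.trans_le (h x)).ne', H0_mono (H0_inv hf.2 hc h) (le_abs_self _)⟩
  | succ k ih =>
    obtain ⟨C, hC, ih⟩ := ih
    refine ⟨|c⁻¹ + (c⁻¹ * c⁻¹) * K| + 2 ^ (k + 1) * (|K| * (2 ^ (k + 1) * (C * C))),
      by positivity, fun f hf h => ?_⟩
    have hd := HB_differentiable hf
    have hK := HB_nonneg hf
    have hf' := HB_of_le hf (Nat.le_succ k)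
    have hi := ih f hf' h
    have h0 : ∀ x, f x ≠ 0 := fun x => (hc.trans_le (h x)).ne'
    refine HB_succ_iff.2 ⟨hf.1.inv h0, ?_, fun i => ?_⟩
    · refine H0_mono (H0_inv (HB_H0 hf) hc h) ?_
      have := le_abs_self (c⁻¹ + (c⁻¹ * c⁻¹) * K)
      have : (0 : ℝ) ≤ 2 ^ (k + 1) * (|K| * (2 ^ (k + 1) * (C * C))) := by positivity
      linarith
    · have he : pd i (fun x => (f x)⁻¹) = fun x => - pd i f x * ((f x)⁻¹ * (f x)⁻¹) := by
        funext x
        exact pd_inv_at (hd x) (h0 x) i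
      rw [he]
      refine HB_mul' (HB_neg (HB_pd hf i)) (HB_mul hi hi) ?_
      rw [abs_of_nonneg hK]
      have := abs_nonneg (c⁻¹ + (c⁻¹ * c⁻¹) * K)
      linarith

theorem HB_log (k : ℕ) (c K : ℝ) (hc : 0 < c) : ∃ C : ℝ, 0 ≤ C ∧ ∀ f : E n → ℝ,
    HB k K f → (∀ x, c ≤ f x) → HB k C (fun x => Real.log (f x)) := by
  rcases k with _ | k
  · refine ⟨|(|Real.log c| + |Real.log K| + c⁻¹ * K)|, abs_nonneg _, fun f hf h => ?_⟩
    rw [HB_zero_iff] at *
    exact ⟨hf.1.log fun x => (hc.trans_le (h x)).ne', H0_mono (H0_log hf.2 hc h) (le_abs_self _)⟩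
  · obtain ⟨C, hC, hinv⟩ := HB_inv (n := n) k c K hc
    refine ⟨|(|Real.log c| + |Real.log K| + c⁻¹ * K)| + 2 ^ (k + 1) * (|K| * C),
      by positivity, fun f hf h => ?_⟩
    have hd := HB_differentiable hf
    have hK := HB_nonneg hf
    have hf' := HB_of_le hf (Nat.le_succ k)
    have h0 : ∀ x, f x ≠ 0 := fun x => (hc.trans_le (h x)).ne'
    refine HB_succ_iff.2 ⟨hf.1.log h0, ?_, fun i => ?_⟩
    · refine H0_mono (H0_log (HB_H0 hf) hc h) ?_
      have := le_abs_self (|Real.log c| + |Real.log K| + c⁻¹ * K)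
      have : (0 : ℝ) ≤ 2 ^ (k + 1) * (|K| * C) := by positivity
      linarith
    · have he : pd i (fun x => Real.log (f x)) = fun x => pd i f x * (f x)⁻¹ := by
        funext x
        exact pd_log_at (hd x) (h0 x) i
      rw [he]
      refine HB_mul' (HB_pd hf i) (hinv f hf' h) ?_
      rw [abs_of_nonneg hK]
      have := abs_nonneg (|Real.log c| + |Real.log K| + c⁻¹ * K)
      linarith

/-! ## Determinant and inverse -/

theorem HB_det (k : ℕ) (K : ℝ) : ∃ C : ℝ, 0 ≤ C ∧ ∀ M : E n → Mt n,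
    (∀ i j, HB k K (fun x => M x i j)) → HB k C (fun x => (M x).det) := by
  obtain ⟨C, hC, hp⟩ := HB_prod (n := n) (Finset.univ : Finset (Fin n)) k K
  refine ⟨∑ _σ : Equiv.Perm (Fin n), |1| * C, Finset.sum_nonneg fun _ _ => by positivity,
    fun M hM => ?_⟩
  have key : HB k (∑ _σ : Equiv.Perm (Fin n), |1| * C)
      (fun x => ∑ σ : Equiv.Perm (Fin n), ((Equiv.Perm.sign σ : ℤ) : ℝ) *
        ∏ i, M x (σ i) i) := by
    apply HB_sum
    intro σ _
    have h1 := HB_const_mul ((Equiv.Perm.sign σ : ℤ) : ℝ)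
      (hp (fun i x => M x (σ i) i) (fun i _ => hM (σ i) i))
    refine HB_mono h1 ?_
    apply mul_le_mul_of_nonneg_right _ hC
    rcases Int.units_eq_one_or (Equiv.Perm.sign σ) with h | h <;> simp [h]
  refine HB_congr key fun x => ?_
  rw [Matrix.det_apply']

theorem HB_adj (k : ℕ) (K : ℝ) : ∃ C : ℝ, 0 ≤ C ∧ ∀ M : E n → Mt n,
    (∀ i j, HB k K (fun x => M x i j)) → ∀ i j, HB k C (fun x => (M x).adjugate i j) := by
  obtain ⟨C, hC, hd⟩ := HB_det (n := n) k (max K 1)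
  refine ⟨C, hC, fun M hM i j => ?_⟩
  have h1 := hd (fun x => (M x).updateRow j (Pi.single i 1)) (fun a b => ?_)
  · exact HB_congr h1 fun x => by rw [Matrix.adjugate_apply]
  · by_cases ha : a = j
    · subst ha
      simp only [Matrix.updateRow_self]
      refine HB_const k _ ?_
      refine le_trans ?_ (le_max_right _ _)
      by_cases hb : b = i
      · subst hb; simp
      · simp [hb]
    · simp only [Matrix.updateRow_ne ha]
      exact HB_mono (hM a b) (le_max_left _ _)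

theorem HB_minv (k : ℕ) (d K : ℝ) (hd : 0 < d) : ∃ C : ℝ, 0 ≤ C ∧ ∀ M : E n → Mt n,
    (∀ i j, HB k K (fun x => M x i j)) → (∀ x, d ≤ (M x).det) →
    ∀ i j, HB k C (fun x => (M x)⁻¹ i j) := by
  obtain ⟨C1, hC1, h1⟩ := HB_det (n := n) k K
  obtain ⟨C2, hC2, h2⟩ := HB_adj (n := n) k K
  obtain ⟨C3, hC3, h3⟩ := HB_inv (n := n) k d C1 hd
  refine ⟨2 ^ (k + 1) * (C3 * C2), by positivity, fun M hM hdet i j => ?_⟩
  have h4 := HB_mul (h3 _ (h1 M hM) hdet) (h2 M hM i j)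
  refine HB_congr h4 fun x => ?_
  rw [Matrix.inv_def]
  simp [Ring.inverse_eq_inv']

theorem HB_logdet (k : ℕ) (d K : ℝ) (hd : 0 < d) : ∃ C : ℝ, 0 ≤ C ∧ ∀ M : E n → Mt n,
    (∀ i j, HB k K (fun x => M x i j)) → (∀ x, d ≤ (M x).det) →
    HB k C (fun x => Real.log (M x).det) := by
  obtain ⟨C1, hC1, h1⟩ := HB_det (n := n) k K
  obtain ⟨C3, hC3, h3⟩ := HB_log (n := n) k d C1 hd
  exact ⟨C3, hC3, fun M hM hdet => h3 _ (h1 M hM) hdet⟩

end CM72
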