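import Pool.Agent.Helper44.CM.StmtsB5
import Pool.Agent.Helper72.CM.HBc

/-!
# Project MM, rows HBALG, HBSUM, LIP0
-/

namespace CM72

open CM

variable {n : ℕ}

theorem pd3_comm {u : E n → ℝ} (hu : ContDiff ℝ (3 : ℕ) u) (i a b : Fin n) :
    pd a (pd b (pd i u)) = pd i (pd a (pd b u)) := by
  have h2 : ContDiff ℝ (2 : ℕ) u := hu.of_le (by norm_cast)
  rw [pd_comm h2 b i, pd_comm (contDiff_pd (k := 2) hu b) a i]

theorem H2_down {k : ℕ} {a : ℝ} {u : E n → ℝ} (h : H2 (k + 1) a u) : H2 k a u :=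
  ⟨h.1.of_le (by norm_cast; omega), fun i j => HB_of_le (h.2 i j) (Nat.le_succ k)⟩

theorem H2_pd {k : ℕ} {a : ℝ} {u : E n → ℝ} (h : H2 (k + 1) a u) (i : Fin n) :
    H2 k a (pd i u) := by
  refine ⟨contDiff_pd (k := k + 2) (h.1.of_le (by norm_cast)) i, fun b c => ?_⟩
  rw [pd3_comm (h.1.of_le (by norm_cast; omega)) i b c]
  exact HB_pd (h.2 b c) i

theorem H2_up {k : ℕ} {a : ℝ} {u : E n → ℝ} (h : ContDiff ℝ (k + 3 : ℕ) u) (h0 : H2 0 a u)
    (hp : ∀ i, H2 k a (pd i u)) : H2 (k + 1) a u := by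
  refine ⟨h.of_le (by norm_cast), fun b c => ?_⟩
  refine HB_succ_iff.2 ⟨?_, HB_H0 (h0.2 b c), fun i => ?_⟩
  · exact contDiff_pd (k := k + 1) (contDiff_pd (k := k + 2) (h.of_le (by norm_cast)) c) b
  · rw [← pd3_comm (h.of_le (by norm_cast; omega)) i b c]
    exact (hp i).2 b c

theorem st_HBALG : ST_HBALG := by
  intro n
  refine ⟨fun K f h => H0_nonneg h, fun k c => HB_const k c le_rfl,
    fun k j a b f hj hab h => HB_mono (HB_of_le h hj) hab,
    fun k a b f g hf hg => HB_add hf hg, fun k a c f hf => HB_const_mul c hf,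
    fun k a b f g hf hg => HB_mul' hf hg (le_of_eq (by ring)),
    fun k a f h i => HB_pd h i, fun k a f h1 h2 h3 => HB_succ_iff.2 ⟨h1, h2, h3⟩,
    fun k a u h => ⟨H2_down h, H2_pd h⟩, fun k a u h h0 hp => H2_up h h0 hp⟩

theorem st_HBSUM : ST_HBSUM := by
  intro n k m a f hf
  have h := HB_sum (Finset.univ : Finset (Fin m)) (K := fun _ => a) (f := f) (fun i _ => hf i)
  simpa using h

theorem fderiv_apply_eq_sum {f : E n → ℝ} (x v : E n) :
    fderiv ℝ f x v = ∑ i, v i * pd i f x := by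
  have h1 : v = ∑ i, v i • (EuclideanSpace.single i (1 : ℝ) : E n) := by
    ext j
    simp [Finset.sum_apply, Pi.single_apply]
  conv_lhs => rw [h1]
  rw [map_sum]
  refine Finset.sum_congr rfl fun i _ => ?_
  rw [map_smul, smul_eq_mul]
  rfl

theorem norm_fderiv_le {f : E n → ℝ} {a : ℝ} {x : E n} (h : ∀ i, |pd i f x| ≤ a) (ha : 0 ≤ a) :
    ‖fderiv ℝ f x‖ ≤ n * a := by
  refine ContinuousLinearMap.opNorm_le_bound _ (by positivity) fun v => ?_
  rw [fderiv_apply_eq_sum, Real.norm_eq_abs]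
  calc |∑ i, v i * pd i f x| ≤ ∑ i, |v i * pd i f x| := Finset.abs_sum_le_sum_abs _ _
    _ ≤ ∑ _i : Fin n, ‖v‖ * a := by
        refine Finset.sum_le_sum fun i _ => ?_
        rw [abs_mul]
        refine mul_le_mul ?_ (h i) (abs_nonneg _) (norm_nonneg _)
        have := EuclideanSpace.norm_eq v
        have h2 : ‖v i‖ ≤ ‖v‖ := PiLp.norm_apply_le v i
        simpa using h2
    _ = n * a * ‖v‖ := by
        simp only [Finset.sum_const, Finset.card_univ, Fintype.card_fin, nsmul_eq_mul]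
        ring

theorem st_LIP0 : ST_LIP0 := by
  intro n a f hf hb hg
  have ha : 0 ≤ a := (abs_nonneg _).trans (hb 0)
  have hd : Differentiable ℝ f := hf.differentiable (by simp)
  have hlip : ∀ x y : E n, |f x - f y| ≤ n * a * dist x y := by
    intro x y
    have := Convex.norm_image_sub_le_of_norm_fderiv_le (𝕜 := ℝ) (f := f) (C := n * a)
      (s := Set.univ) (x := y) (y := x) (fun z _ => hd z)
      (fun z _ => norm_fderiv_le (hg z) ha) convex_univ (Set.mem_univ _) (Set.mem_univ _)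
    rw [dist_eq_norm]
    simpa using this
  have hn : (0 : ℝ) ≤ n := Nat.cast_nonneg n
  refine ⟨fun x => (hb x).trans (by nlinarith), fun x y => ?_⟩
  by_cases h : dist x y ≤ 1
  · have h1 : dist x y ≤ Real.sqrt (dist x y) := by
      have h2 := Real.sqrt_nonneg (dist x y)
      have h3 := Real.mul_self_sqrt (dist_nonneg (x := x) (y := y))
      have h4 : Real.sqrt (dist x y) ≤ 1 := by
        rw [show (1 : ℝ) = Real.sqrt 1 by simp]
        exact Real.sqrt_le_sqrt h
      nlinarith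
    calc |f x - f y| ≤ n * a * dist x y := hlip x y
      _ ≤ n * a * Real.sqrt (dist x y) := mul_le_mul_of_nonneg_left h1 (by positivity)
      _ ≤ 2 * (n + 1) * a * Real.sqrt (dist x y) := by
          apply mul_le_mul_of_nonneg_right _ (Real.sqrt_nonneg _)
          nlinarith
  · have h1 : 1 ≤ Real.sqrt (dist x y) := by
      rw [show (1 : ℝ) = Real.sqrt 1 by simp]
      exact Real.sqrt_le_sqrt (not_le.1 h).le
    have h2 : |f x - f y| ≤ 2 * a := by
      have := abs_sub (f x) (f y)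
      have := hb x
      have := hb y
      linarith
    calc |f x - f y| ≤ 2 * a := h2
      _ ≤ 2 * (n + 1) * a * 1 := by nlinarith
      _ ≤ 2 * (n + 1) * a * Real.sqrt (dist x y) :=
          mul_le_mul_of_nonneg_left h1 (by positivity)

end CM72
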