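import Pool.Agent.Helper72.CM.HBc

/-!
# Project MM, route CM: matrix facts (bounds of determinant and inverse, derivatives)
-/

namespace CM72

open CM Matrix

variable {n : ℕ}

/-! ## Quadratic form bounds -/

theorem quad_eq (M : Mt n) (v : Fin n → ℝ) :
    ∑ i, ∑ j, v i * M i j * v j = v ⬝ᵥ M *ᵥ v := by
  simp only [dotProduct, mulVec, Finset.mul_sum]
  exact Finset.sum_congr rfl fun i _ => Finset.sum_congr rfl fun j _ => by ring

theorem sq_eq (v : Fin n → ℝ) : ∑ i, v i ^ 2 = v ⬝ᵥ v := by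
  simp only [dotProduct]
  exact Finset.sum_congr rfl fun i _ => by ring

theorem LB_iff {c : ℝ} {M : Mt n} : LB c M ↔ ∀ v : Fin n → ℝ, c * (v ⬝ᵥ v) ≤ v ⬝ᵥ M *ᵥ v := by
  unfold LB
  simp only [quad_eq, sq_eq]

theorem UB_iff {c : ℝ} {M : Mt n} : UB c M ↔ ∀ v : Fin n → ℝ, v ⬝ᵥ M *ᵥ v ≤ c * (v ⬝ᵥ v) := by
  unfold UB
  simp only [quad_eq, sq_eq]

theorem LB_mono {c c' : ℝ} {M : Mt n} (h : LB c M) (hc : c' ≤ c) : LB c' M := fun v =>
  (mul_le_mul_of_nonneg_right hc (Finset.sum_nonneg fun i _ => sq_nonneg (v i))).trans (h v)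

theorem UB_mono {c c' : ℝ} {M : Mt n} (h : UB c M) (hc : c ≤ c') : UB c' M := fun v =>
  (h v).trans (mul_le_mul_of_nonneg_right hc (Finset.sum_nonneg fun i _ => sq_nonneg (v i)))

theorem isHermitian_of_symm {M : Mt n} (h : M.IsSymm) : M.IsHermitian := by
  rw [Matrix.IsHermitian, Matrix.conjTranspose_eq_transpose_of_trivial]
  exact h

theorem dot_self_nonneg (v : Fin n → ℝ) : 0 ≤ v ⬝ᵥ v := by
  rw [← sq_eq]
  exact Finset.sum_nonneg fun i _ => sq_nonneg (v i)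

theorem LB_eig {c : ℝ} {M : Mt n} (hs : M.IsSymm) (h : LB c M) (i : Fin n) :
    c ≤ (isHermitian_of_symm hs).eigenvalues i := by
  set hH := isHermitian_of_symm hs
  set v : Fin n → ℝ := (hH.eigenvectorBasis i).ofLp with hv
  have h1 : hH.eigenvalues i = v ⬝ᵥ M *ᵥ v := by
    rw [hH.eigenvalues_eq i]
    simp [hv]
  have h2 : v ⬝ᵥ v = 1 := by
    have h3 := hH.eigenvectorBasis.orthonormal.1 i
    have h4 : ‖hH.eigenvectorBasis i‖ ^ 2 = ∑ j, (hH.eigenvectorBasis i j) ^ 2 := by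
      rw [EuclideanSpace.norm_sq_eq]
      simp
    rw [h3] at h4
    rw [← sq_eq, ← h4]
    norm_num
  have h5 := (LB_iff.1 h) v
  rw [h2, ← h1, mul_one] at h5
  exact h5

theorem LB_det {c : ℝ} {M : Mt n} (hc : 0 ≤ c) (hs : M.IsSymm) (h : LB c M) :
    c ^ n ≤ M.det := by
  have hH := isHermitian_of_symm hs
  have h1 : M.det = ∏ i, (isHermitian_of_symm hs).eigenvalues i := by
    have := (isHermitian_of_symm hs).det_eq_prod_eigenvalues
    simpa using this
  rw [h1]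
  have h2 : ∏ _i : Fin n, c = c ^ n := by simp
  rw [← h2]
  exact Finset.prod_le_prod (fun i _ => hc) fun i _ => LB_eig hs h i

theorem LB_det_pos {c : ℝ} {M : Mt n} (hc : 0 < c) (hs : M.IsSymm) (h : LB c M) :
    0 < M.det := (pow_pos hc n).trans_le (LB_det hc.le hs h)

theorem LB_isUnit {c : ℝ} {M : Mt n} (hc : 0 < c) (hs : M.IsSymm) (h : LB c M) :
    IsUnit M.det := (LB_det_pos hc hs h).ne'.isUnit

theorem symm_inv {M : Mt n} (hs : M.IsSymm) : (M⁻¹).IsSymm := by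
  unfold Matrix.IsSymm at *
  rw [Matrix.transpose_nonsing_inv, hs]

/-- Cauchy-Schwarz for the semi-inner product of a symmetric nonnegative matrix. -/
theorem quad_cs {M : Mt n} (hs : M.IsSymm) (h : LB 0 M) (v w : Fin n → ℝ) :
    (v ⬝ᵥ M *ᵥ w) ^ 2 ≤ (v ⬝ᵥ M *ᵥ v) * (w ⬝ᵥ M *ᵥ w) := by
  have hsym : w ⬝ᵥ M *ᵥ v = v ⬝ᵥ M *ᵥ w := by
    rw [dotProduct_mulVec, ← mulVec_transpose, hs, dotProduct_comm]
  have key : ∀ t : ℝ, 0 ≤ (w ⬝ᵥ M *ᵥ w) * (t * t) + 2 * (v ⬝ᵥ M *ᵥ w) * t + v ⬝ᵥ M *ᵥ v := by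
    intro t
    have h1 := (LB_iff.1 h) (v + t • w)
    rw [zero_mul] at h1
    have h2 : (v + t • w) ⬝ᵥ M *ᵥ (v + t • w) = (w ⬝ᵥ M *ᵥ w) * (t * t)
        + 2 * (v ⬝ᵥ M *ᵥ w) * t + v ⬝ᵥ M *ᵥ v := by
      simp only [mulVec_add, mulVec_smul, dotProduct_add, add_dotProduct, dotProduct_smul,
        smul_dotProduct, smul_eq_mul, hsym]
      ring
    rwa [h2] at h1
  have := discrim_le_zero key
  rw [discrim] at this
  nlinarith

theorem LB_inv {c C : ℝ} {M : Mt n} (hc : 0 < c) (hC : 0 < C) (hs : M.IsSymm) (h : LB c M)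
    (hU : UB C M) : LB C⁻¹ M⁻¹ := by
  have hu := LB_isUnit hc hs h
  rw [LB_iff]
  intro v
  set w := M⁻¹ *ᵥ v with hw
  have hMw : M *ᵥ w = v := by
    rw [hw, mulVec_mulVec, Matrix.mul_nonsing_inv _ hu, one_mulVec]
  -- `(v.v)^2 = (v . M w)^2 ≤ (v M v)(w M w) ≤ C (v.v) (v . w)`
  have h0 : LB 0 M := LB_mono h hc.le
  have h1 := quad_cs hs h0 v w
  rw [hMw] at h1
  have h2 := (UB_iff.1 hU) v
  have h3 : w ⬝ᵥ v = v ⬝ᵥ w := dotProduct_comm _ _
  rw [h3] at h1
  have h4 : 0 ≤ v ⬝ᵥ w := by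
    have := (LB_iff.1 h0) w
    rw [hMw, h3, zero_mul] at this
    exact this
  have hvv := dot_self_nonneg v
  have h5 : (v ⬝ᵥ v) ^ 2 ≤ C * (v ⬝ᵥ v) * (v ⬝ᵥ w) :=
    h1.trans (mul_le_mul_of_nonneg_right h2 h4)
  rcases hvv.eq_or_lt with h6 | h6
  · rw [← h6, mul_zero]
    exact h4
  · have h7 : v ⬝ᵥ v ≤ C * (v ⬝ᵥ w) := by
      have : (v ⬝ᵥ v) * (v ⬝ᵥ v) ≤ (v ⬝ᵥ v) * (C * (v ⬝ᵥ w)) := by nlinarith
      exact le_of_mul_le_mul_left this h6
    rw [inv_mul_le_iff₀ hC]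
    exact h7

theorem UB_inv {c : ℝ} {M : Mt n} (hc : 0 < c) (hs : M.IsSymm) (h : LB c M) :
    UB c⁻¹ M⁻¹ := by
  have hu := LB_isUnit hc hs h
  rw [UB_iff]
  intro v
  set w := M⁻¹ *ᵥ v with hw
  have hMw : M *ᵥ w = v := by
    rw [hw, mulVec_mulVec, Matrix.mul_nonsing_inv _ hu, one_mulVec]
  have h1 := (LB_iff.1 h) w
  rw [hMw, dotProduct_comm w v] at h1
  -- `c |w|^2 ≤ v.w`, and `(v.w)^2 ≤ |v|^2 |w|^2`
  have h2 : (v ⬝ᵥ w) ^ 2 ≤ (v ⬝ᵥ v) * (w ⬝ᵥ w) := by
    have h3 := quad_cs (M := (1 : Mt n)) Matrix.isSymm_one (by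
      rw [LB_iff]; intro u; rw [zero_mul, one_mulVec]; exact dot_self_nonneg u) v w
    simpa only [one_mulVec] using h3
  have hvv := dot_self_nonneg v
  have hww := dot_self_nonneg w
  rw [← div_eq_inv_mul, le_div_iff₀ hc]
  have hvw : 0 ≤ v ⬝ᵥ w := (mul_nonneg hc.le hww).trans h1
  rcases hvw.eq_or_lt with h6 | h6
  · rw [← h6, zero_mul]
    exact hvv
  · have h7 : (v ⬝ᵥ w) * ((v ⬝ᵥ w) * c) ≤ (v ⬝ᵥ w) * (v ⬝ᵥ v) := by
      calc (v ⬝ᵥ w) * ((v ⬝ᵥ w) * c) = (v ⬝ᵥ w) ^ 2 * c := by ring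
        _ ≤ (v ⬝ᵥ v) * (w ⬝ᵥ w) * c := mul_le_mul_of_nonneg_right h2 hc.le
        _ = (v ⬝ᵥ v) * (c * (w ⬝ᵥ w)) := by ring
        _ ≤ (v ⬝ᵥ v) * (v ⬝ᵥ w) := mul_le_mul_of_nonneg_left h1 hvv
        _ = (v ⬝ᵥ w) * (v ⬝ᵥ v) := by ring
    exact le_of_mul_le_mul_left h7 h6

/-- Entrywise bound gives an upper bound of the quadratic form. -/
theorem UB_of_entries {K : ℝ} {M : Mt n} (h : ∀ i j, |M i j| ≤ K) : UB (n * K) M := by
  intro v
  have h1 : ∀ i j, v i * M i j * v j ≤ K * ((v i ^ 2 + v j ^ 2) / 2) := by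
    intro i j
    have hK : 0 ≤ K := (abs_nonneg _).trans (h i j)
    have h2 : v i * M i j * v j ≤ |v i| * K * |v j| := by
      refine (le_abs_self _).trans ?_
      rw [abs_mul, abs_mul]
      exact mul_le_mul_of_nonneg_right (mul_le_mul_of_nonneg_left (h i j) (abs_nonneg _))
        (abs_nonneg _)
    have h3 : |v i| * |v j| ≤ (v i ^ 2 + v j ^ 2) / 2 := by
      have := two_mul_le_add_sq |v i| |v j|
      rw [sq_abs, sq_abs] at this
      linarith
    calc v i * M i j * v j ≤ |v i| * K * |v j| := h2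
      _ = K * (|v i| * |v j|) := by ring
      _ ≤ _ := mul_le_mul_of_nonneg_left h3 hK
  calc ∑ i, ∑ j, v i * M i j * v j ≤ ∑ i, ∑ j, K * ((v i ^ 2 + v j ^ 2) / 2) :=
        Finset.sum_le_sum fun i _ => Finset.sum_le_sum fun j _ => h1 i j
    _ = n * K * ∑ i, v i ^ 2 := by
        simp only [← Finset.mul_sum, ← Finset.sum_div, Finset.sum_add_distrib, Finset.sum_const,
          Finset.card_univ, Fintype.card_fin, nsmul_eq_mul]
        ring

/-- Entries are bounded by the quadratic form bounds. -/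
theorem entries_of_UB {C : ℝ} {M : Mt n} (hs : M.IsSymm) (h0 : LB 0 M) (h : UB C M)
    (i j : Fin n) : |M i j| ≤ C := by
  have hii : ∀ k, 0 ≤ M k k ∧ M k k ≤ C := by
    intro k
    have h1 := (LB_iff.1 h0) (Pi.single k 1)
    have h2 := (UB_iff.1 h) (Pi.single k 1)
    simp at h1 h2
    exact ⟨h1, h2⟩
  have h3 := quad_cs hs h0 (Pi.single i 1) (Pi.single j 1)
  simp at h3
  have hC : 0 ≤ C := (hii i).1.trans (hii i).2
  have h4 : M i j ^ 2 ≤ C ^ 2 := by
    have := mul_le_mul (hii i).2 (hii j).2 (hii j).1 hC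
    nlinarith
  exact abs_le_of_sq_le_sq h4 hC

/-! ## Derivatives of determinant, inverse, log det -/

theorem det_update (A : Mt n) (b : Fin n → ℝ) (i : Fin n) :
    (A.updateRow i b).det = ∑ j, b j * A.adjugate j i := by
  rw [← Matrix.cramer_transpose_apply, Matrix.cramer_eq_adjugate_mulVec]
  simp only [mulVec, dotProduct]
  refine Finset.sum_congr rfl fun j _ => ?_
  rw [← Matrix.adjugate_transpose, Matrix.transpose_apply, mul_comm]

/-- The determinant as a continuous multilinear map. -/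
noncomputable def detC (n : ℕ) : ContinuousMultilinearMap ℝ (fun _ : Fin n => Fin n → ℝ) ℝ where
  toMultilinearMap := (Matrix.detRowAlternating (n := Fin n) (R := ℝ)).toMultilinearMap
  cont := by
    show Continuous fun M : Fin n → Fin n → ℝ => Matrix.det (Matrix.of M)
    exact Continuous.matrix_det continuous_id

theorem detC_apply (M : Fin n → Fin n → ℝ) : detC n M = Matrix.det (Matrix.of M) := rfl

theorem pd_det_at {M : E n → Mt n} {x : E n} (hM : ∀ a b, DifferentiableAt ℝ (fun y => M y a b) x)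
    (i : Fin n) : pd i (fun y => (M y).det) x
      = ∑ a, ∑ b, pd i (fun y => M y a b) x * (M x).adjugate b a := by
  have h1 : HasFDerivAt (fun y => (fun a b => M y a b : Fin n → Fin n → ℝ))
      (ContinuousLinearMap.pi fun a => ContinuousLinearMap.pi fun b =>
        fderiv ℝ (fun y => M y a b) x) x := by
    rw [hasFDerivAt_pi]
    intro a
    rw [hasFDerivAt_pi]
    intro b
    exact (hM a b).hasFDerivAt
  have h2 := ((detC n).hasFDerivAt (x := fun a b => M x a b)).comp x h1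
  have h3 : (detC n) ∘ (fun y => (fun a b => M y a b : Fin n → Fin n → ℝ))
      = fun y => (M y).det := by
    funext y
    rfl
  rw [h3] at h2
  simp only [pd]
  rw [h2.fderiv]
  simp only [ContinuousLinearMap.comp_apply, ContinuousMultilinearMap.linearDeriv_apply]
  refine Finset.sum_congr rfl fun a _ => ?_
  have h4 := det_update (M x) (fun b => (fderiv ℝ (fun y => M y a b) x)
    (EuclideanSpace.single i 1)) a
  rw [← h4]
  rfl

theorem pd_logdet_at {M : E n → Mt n} {x : E n}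
    (hM : ∀ a b, DifferentiableAt ℝ (fun y => M y a b) x) (h0 : (M x).det ≠ 0) (i : Fin n) :
    pd i (fun y => Real.log (M y).det) x
      = ∑ a, ∑ b, pd i (fun y => M y a b) x * (M x)⁻¹ b a := by
  have hd : DifferentiableAt ℝ (fun y => (M y).det) x := by
    have h1 : HasFDerivAt (fun y => (fun a b => M y a b : Fin n → Fin n → ℝ))
        (ContinuousLinearMap.pi fun a => ContinuousLinearMap.pi fun b =>
          fderiv ℝ (fun y => M y a b) x) x := by
      rw [hasFDerivAt_pi]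
      intro a
      rw [hasFDerivAt_pi]
      intro b
      exact (hM a b).hasFDerivAt
    exact (((detC n).hasFDerivAt (x := fun a b => M x a b)).comp x h1).differentiableAt
  rw [pd_log_at hd h0, pd_det_at hM, Finset.sum_mul]
  refine Finset.sum_congr rfl fun a _ => ?_
  rw [Finset.sum_mul]
  refine Finset.sum_congr rfl fun b _ => ?_
  rw [Matrix.inv_def, Matrix.smul_apply, Ring.inverse_eq_inv', smul_eq_mul]
  ring

end CM72
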