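import Pool.Agent.Helper44.CM.StmtsB5
import Pool.Agent.Helper72.CM.Mat
import Pool.Agent.Helper72.CM.Alg

/-!
# Project MM, rows HBINV, HBINVD
-/

namespace CM72

open CM Matrix

variable {n : ℕ}

/-! ## Inverse of a matrix with a lower bound (symmetry is not needed) -/

theorem det_ne_zero_of_LB {c : ℝ} {M : Mt n} (hc : 0 < c) (h : LB c M) : M.det ≠ 0 := by
  intro h0
  obtain ⟨v, hv, hMv⟩ := Matrix.exists_mulVec_eq_zero_iff.2 h0
  have h1 := (LB_iff.1 h) v
  rw [hMv, dotProduct_zero] at h1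
  have h2 : v ⬝ᵥ v = 0 := by
    have := dot_self_nonneg v
    by_contra hne
    have hpos : 0 < v ⬝ᵥ v := lt_of_le_of_ne this (Ne.symm hne)
    have := mul_pos hc hpos
    linarith
  apply hv
  funext i
  rw [← sq_eq] at h2
  have := (Finset.sum_eq_zero_iff_of_nonneg (fun i _ => sq_nonneg (v i))).1 h2 i
    (Finset.mem_univ i)
  simpa using this

theorem isUnit_det_of_LB {c : ℝ} {M : Mt n} (hc : 0 < c) (h : LB c M) : IsUnit M.det :=
  (det_ne_zero_of_LB hc h).isUnit

theorem inv_entry_le {c : ℝ} {M : Mt n} (hc : 0 < c) (h : LB c M) (i j : Fin n) :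
    |M⁻¹ i j| ≤ c⁻¹ := by
  have hu := isUnit_det_of_LB hc h
  set w : Fin n → ℝ := M⁻¹ *ᵥ (Pi.single j 1) with hw
  have hwi : ∀ k, w k = M⁻¹ k j := by
    intro k
    rw [hw]
    simp
  have hMw : M *ᵥ w = Pi.single j 1 := by
    rw [hw, mulVec_mulVec, Matrix.mul_nonsing_inv _ hu, one_mulVec]
  have h1 := (LB_iff.1 h) w
  rw [hMw] at h1
  have h2 : w ⬝ᵥ (Pi.single j 1 : Fin n → ℝ) = w j := by simp
  rw [h2, ← sq_eq] at h1
  have h3 : ∀ k, w k ^ 2 ≤ ∑ i, w i ^ 2 := fun k =>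
    Finset.single_le_sum (f := fun i => w i ^ 2) (fun i _ => sq_nonneg (w i)) (Finset.mem_univ k)
  set S := ∑ i, w i ^ 2 with hS
  have hS0 : 0 ≤ S := Finset.sum_nonneg fun i _ => sq_nonneg (w i)
  -- `c S ≤ w j ≤ sqrt S`, so `S ≤ c⁻²`
  have h4 : (c * S) * (c * S) ≤ S := by
    have hcs : 0 ≤ c * S := mul_nonneg hc.le hS0
    have h5 : (c * S) * (c * S) ≤ w j * w j := mul_self_le_mul_self hcs h1
    have := h3 j
    nlinarith
  have h5 : S ≤ c⁻¹ * c⁻¹ := by
    rcases hS0.eq_or_lt with h6 | h6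
    · rw [← h6]
      have : 0 < c⁻¹ := inv_pos.2 hc
      positivity
    · have h7 : S * (c * c * S) ≤ S * 1 := by nlinarith
      have h8 : c * c * S ≤ 1 := le_of_mul_le_mul_left h7 h6
      have h9 : (c⁻¹ * c⁻¹) * (c * c * S) ≤ (c⁻¹ * c⁻¹) * 1 :=
        mul_le_mul_of_nonneg_left h8 (by positivity)
      have h10 : (c⁻¹ * c⁻¹) * (c * c * S) = S := by field_simp
      linarith
  have h6 : (w i) ^ 2 ≤ (c⁻¹) ^ 2 := by
    have := h3 i
    nlinarith
  rw [← hwi i]
  exact abs_le_of_sq_le_sq h6 (inv_pos.2 hc).le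

theorem inv_sub_inv {G G' : Mt n} (h : IsUnit G.det) (h' : IsUnit G'.det) :
    G⁻¹ - G'⁻¹ = G⁻¹ * (G' - G) * G'⁻¹ := by
  rw [Matrix.mul_sub, Matrix.sub_mul, Matrix.nonsing_inv_mul _ h, Matrix.one_mul,
    Matrix.mul_assoc, Matrix.mul_nonsing_inv _ h', Matrix.mul_one]

theorem inv_sub_inv_apply {G G' : Mt n} (h : IsUnit G.det) (h' : IsUnit G'.det) (i j : Fin n) :
    G⁻¹ i j - G'⁻¹ i j = ∑ b, ∑ a, G⁻¹ i a * (G' a b - G a b) * G'⁻¹ b j := by
  have h1 := congrFun (congrFun (inv_sub_inv h h') i) j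
  rw [Matrix.sub_apply] at h1
  rw [h1]
  simp only [Matrix.mul_apply, Matrix.sub_apply, Finset.sum_mul]

theorem contDiff_det {m : WithTop ℕ∞} {M : E n → Mt n}
    (hM : ∀ a b, ContDiff ℝ m (fun x => M x a b)) : ContDiff ℝ m (fun x => (M x).det) := by
  have h1 : ContDiff ℝ m (fun x => (fun a b => M x a b : Fin n → Fin n → ℝ)) := by
    rw [contDiff_pi]
    intro a
    rw [contDiff_pi]
    intro b
    exact hM a b
  exact (detC n).contDiff.comp h1

theorem contDiff_adj {m : WithTop ℕ∞} {M : E n → Mt n}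
    (hM : ∀ a b, ContDiff ℝ m (fun x => M x a b)) (i j : Fin n) :
    ContDiff ℝ m (fun x => (M x).adjugate i j) := by
  have h1 : (fun x => (M x).adjugate i j)
      = fun x => ((M x).updateRow j (Pi.single i 1)).det := by
    funext x
    rw [Matrix.adjugate_apply]
  rw [h1]
  apply contDiff_det
  intro a b
  by_cases ha : a = j
  · subst ha
    simp only [Matrix.updateRow_self]
    exact contDiff_const
  · simp only [Matrix.updateRow_ne ha]
    exact hM a b

theorem contDiff_minv {m : WithTop ℕ∞} {M : E n → Mt n}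
    (hM : ∀ a b, ContDiff ℝ m (fun x => M x a b)) (h0 : ∀ x, (M x).det ≠ 0) (i j : Fin n) :
    ContDiff ℝ m (fun x => (M x)⁻¹ i j) := by
  have h1 : (fun x => (M x)⁻¹ i j) = fun x => ((M x).det)⁻¹ * (M x).adjugate i j := by
    funext x
    rw [Matrix.inv_def]
    simp [Ring.inverse_eq_inv']
  rw [h1]
  exact ((contDiff_det hM).inv h0).mul (contDiff_adj hM i j)

theorem continuous_minv {M : E n → Mt n} (hM : ∀ a b, Continuous (fun x => M x a b))
    (h0 : ∀ x, (M x).det ≠ 0) (i j : Fin n) : Continuous (fun x => (M x)⁻¹ i j) := by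
  have := contDiff_minv (m := 0) (fun a b => contDiff_zero.2 (hM a b)) h0 i j
  exact contDiff_zero.1 this

/-- Derivative of the inverse matrix. -/
theorem pd_minv {M : E n → Mt n} (hM : ∀ a b, ContDiff ℝ 1 (fun x => M x a b))
    (h0 : ∀ x, (M x).det ≠ 0) (k i j : Fin n) (x : E n) :
    pd k (fun y => (M y)⁻¹ i j) x
      = - ∑ b, ∑ a, (M x)⁻¹ i a * pd k (fun y => M y a b) x * (M x)⁻¹ b j := by
  have hMd : ∀ a b, Differentiable ℝ (fun x => M x a b) := fun a b =>
    (hM a b).differentiable (by simp)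
  have hId : ∀ a b, Differentiable ℝ (fun x => (M x)⁻¹ a b) := fun a b =>
    (contDiff_minv hM h0 a b).differentiable (by simp)
  -- matrices of derivatives
  set P : Mt n := Matrix.of fun a b => pd k (fun y => M y a b) x with hP
  set Q : Mt n := Matrix.of fun a b => pd k (fun y => (M y)⁻¹ a b) x with hQ
  have h1 : P * (M x)⁻¹ + M x * Q = 0 := by
    ext a b
    have h2 : (fun y => ∑ c, M y a c * (M y)⁻¹ c b) = fun _ => (1 : Mt n) a b := by
      funext y
      have := Matrix.mul_nonsing_inv (M y) (h0 y).isUnit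
      rw [← Matrix.mul_apply, this]
    have h3 : pd k (fun y => ∑ c, M y a c * (M y)⁻¹ c b) x = 0 := by
      rw [h2, pd_const]
    rw [pd_sum_at (f := fun c y => M y a c * (M y)⁻¹ c b) Finset.univ
      (fun c _ => (hMd a c x).mul (hId c b x))] at h3
    simp only [Matrix.add_apply, Matrix.mul_apply, Matrix.zero_apply, hP, hQ, Matrix.of_apply]
    rw [← Finset.sum_add_distrib]
    rw [← h3]
    exact Finset.sum_congr rfl fun c _ => (pd_mul_at (hMd a c x) (hId c b x) k).symm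
  have h4 : Q = - ((M x)⁻¹ * P * (M x)⁻¹) := by
    have h5 : (M x)⁻¹ * (P * (M x)⁻¹ + M x * Q) = 0 := by rw [h1, Matrix.mul_zero]
    rw [Matrix.mul_add, ← Matrix.mul_assoc, ← Matrix.mul_assoc,
      Matrix.nonsing_inv_mul _ (h0 x).isUnit, Matrix.one_mul] at h5
    exact eq_neg_of_add_eq_zero_right h5
  have h6 := congrFun (congrFun h4 i) j
  simp only [hQ, hP, Matrix.neg_apply, Matrix.mul_apply, Matrix.of_apply, Finset.sum_mul] at h6
  exact h6

theorem HB_triple {k : ℕ} {A B D : ℝ} {f g h : E n → ℝ} (hf : HB k A f) (hg : HB k B g)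
    (hh : HB k D h) : HB k (2 ^ (k + 1) * (2 ^ (k + 1) * (A * B) * D)) (fun x => f x * g x * h x) :=
  HB_mul (HB_mul hf hg) hh

theorem st_HBINV : ST_HBINV := by
  intro n k c K hc
  induction k with
  | zero =>
    refine ⟨|c⁻¹| + |∑ _b : Fin n, ∑ _a : Fin n, c⁻¹ * K * c⁻¹|, fun G hG hK i j => ?_⟩
    have h0 : ∀ x, (G x).det ≠ 0 := fun x => det_ne_zero_of_LB hc (hG x)
    have hci : 0 < c⁻¹ := inv_pos.2 hc
    refine HB_zero_iff.2 ⟨continuous_minv (fun a b => (HB_zero_iff.1 (hK a b)).1) h0 i j,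
      fun x => ?_, fun x y => ?_⟩
    · have := inv_entry_le hc (hG x) i j
      have h2 := le_abs_self c⁻¹
      have h3 := abs_nonneg (∑ _b : Fin n, ∑ _a : Fin n, c⁻¹ * K * c⁻¹)
      linarith
    · have hK0 : 0 ≤ K := HB_nonneg (hK i j)
      rw [inv_sub_inv_apply (h0 x).isUnit (h0 y).isUnit]
      have h4 : |∑ b, ∑ a, (G x)⁻¹ i a * (G y a b - G x a b) * (G y)⁻¹ b j|
          ≤ ∑ _b : Fin n, ∑ _a : Fin n, c⁻¹ * (K * Real.sqrt (dist x y)) * c⁻¹ := by
        refine (Finset.abs_sum_le_sum_abs _ _).trans (Finset.sum_le_sum fun b _ => ?_)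
        refine (Finset.abs_sum_le_sum_abs _ _).trans (Finset.sum_le_sum fun a _ => ?_)
        rw [abs_mul, abs_mul]
        have h5 := (HB_zero_iff.1 (hK a b)).2.2 y x
        rw [dist_comm] at h5
        exact mul_le_mul (mul_le_mul (inv_entry_le hc (hG x) i a) h5 (abs_nonneg _) hci.le)
          (inv_entry_le hc (hG y) b j) (abs_nonneg _) (by positivity)
      refine h4.trans ?_
      have h6 : ∑ _b : Fin n, ∑ _a : Fin n, c⁻¹ * (K * Real.sqrt (dist x y)) * c⁻¹
          = (∑ _b : Fin n, ∑ _a : Fin n, c⁻¹ * K * c⁻¹) * Real.sqrt (dist x y) := by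
        simp only [Finset.sum_mul]
        exact Finset.sum_congr rfl fun b _ => Finset.sum_congr rfl fun a _ => by ring
      rw [h6]
      apply mul_le_mul_of_nonneg_right _ (Real.sqrt_nonneg _)
      have h2 := le_abs_self (∑ _b : Fin n, ∑ _a : Fin n, c⁻¹ * K * c⁻¹)
      have h3 := abs_nonneg c⁻¹
      linarith
  | succ k ih =>
    obtain ⟨C, ih⟩ := ih
    set D : ℝ := ∑ _b : Fin n, ∑ _a : Fin n,
      2 ^ (k + 1) * (2 ^ (k + 1) * (|C| * |K|) * |C|) with hD
    refine ⟨|C| + |D|, fun G hG hK i j => ?_⟩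
    have h0 : ∀ x, (G x).det ≠ 0 := fun x => det_ne_zero_of_LB hc (hG x)
    have hKk : ∀ i j, HB k K (fun x => G x i j) := fun i j => HB_of_le (hK i j) (Nat.le_succ k)
    have hI : ∀ i j, HB k |C| (fun x => (G x)⁻¹ i j) := fun i j =>
      HB_mono (ih G hG hKk i j) (le_abs_self C)
    refine HB_succ_iff.2 ⟨contDiff_minv (fun a b => (hK a b).1) h0 i j, ?_, fun m => ?_⟩
    · exact H0_mono (HB_H0 (hI i j)) (by have := abs_nonneg D; linarith)
    · have he : pd m (fun x => (G x)⁻¹ i j) = fun x =>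
          - ∑ b, ∑ a, (G x)⁻¹ i a * pd m (fun y => G y a b) x * (G x)⁻¹ b j := by
        funext x
        exact pd_minv (fun a b => (hK a b).1.of_le (by norm_cast; omega)) h0 m i j x
      rw [he]
      refine HB_mono (K := D) (HB_neg ?_) ?_
      · apply HB_sum
        intro b _
        apply HB_sum
        intro a _
        have h1 : HB k |K| (pd m (fun y => G y a b)) :=
          HB_mono (HB_pd (hK a b) m) (le_abs_self K)
        exact HB_triple (hI i a) h1 (hI b j)
      · have := le_abs_self D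
        have := abs_nonneg C
        linarith

theorem st_HBINVD : ST_HBINVD := by
  intro n k c K hc
  obtain ⟨C, hC⟩ := st_HBINV n k c K hc
  refine ⟨∑ _b : Fin n, ∑ _a : Fin n, 2 ^ (k + 1) * (2 ^ (k + 1) * |C| * |C|),
    fun G G' δ hG hG' hK hK' hδ i j => ?_⟩
  have h0 : ∀ x, (G x).det ≠ 0 := fun x => det_ne_zero_of_LB hc (hG x)
  have h0' : ∀ x, (G' x).det ≠ 0 := fun x => det_ne_zero_of_LB hc (hG' x)
  have hI : ∀ i j, HB k |C| (fun x => (G x)⁻¹ i j) := fun i j =>
    HB_mono (hC G hG hK i j) (le_abs_self C)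
  have hI' : ∀ i j, HB k |C| (fun x => (G' x)⁻¹ i j) := fun i j =>
    HB_mono (hC G' hG' hK' i j) (le_abs_self C)
  have h1 : HB k (∑ _b : Fin n, ∑ _a : Fin n, 2 ^ (k + 1) * (2 ^ (k + 1) * (|C| * δ) * |C|))
      (fun x => ∑ b, ∑ a, (G x)⁻¹ i a * (G' x a b - G x a b) * (G' x)⁻¹ b j) := by
    apply HB_sum
    intro b _
    apply HB_sum
    intro a _
    have h2 : HB k δ (fun x => G' x a b - G x a b) :=
      HB_congr (HB_neg (hδ a b)) fun x => by ring
    exact HB_triple (hI i a) h2 (hI' b j)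
  refine HB_congr (HB_mono h1 (le_of_eq ?_)) fun x => ?_
  · simp only [Finset.sum_mul]
    exact Finset.sum_congr rfl fun b _ => Finset.sum_congr rfl fun a _ => by ring
  · exact (inv_sub_inv_apply (h0 x).isUnit (h0' x).isUnit i j).symm

end CM72
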