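import Pool.Agent.Helper44.CM.Defs

/-!
# Project MM, route CM: calculus of partial derivatives and of the classes `H0`, `HB`
-/

open MeasureTheory

namespace CM72

open CM

variable {n : ℕ}

/-! ## Partial derivatives -/

theorem pd_apply (i : Fin n) (f : E n → ℝ) (x : E n) :
    pd i f x = fderiv ℝ f x (EuclideanSpace.single i (1 : ℝ)) := rfl

theorem pd_const (i : Fin n) (c : ℝ) : pd i (fun _ : E n => c) = fun _ => 0 := by
  funext x
  simp [pd]

theorem pd_zero (i : Fin n) : pd i (fun _ : E n => (0 : ℝ)) = fun _ => 0 := pd_const i 0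

theorem pd_add_at {f g : E n → ℝ} {x : E n} (hf : DifferentiableAt ℝ f x)
    (hg : DifferentiableAt ℝ g x) (i : Fin n) :
    pd i (fun y => f y + g y) x = pd i f x + pd i g x := by
  simp only [pd]
  rw [fderiv_fun_add hf hg]
  rfl

theorem pd_add {f g : E n → ℝ} (hf : Differentiable ℝ f) (hg : Differentiable ℝ g) (i : Fin n) :
    pd i (fun y => f y + g y) = fun x => pd i f x + pd i g x := by
  funext x
  exact pd_add_at (hf x) (hg x) i

theorem pd_neg (f : E n → ℝ) (i : Fin n) :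
    pd i (fun y => - f y) = fun x => - pd i f x := by
  funext x
  simp only [pd]
  rw [fderiv_fun_neg]
  rfl

theorem pd_sub_at {f g : E n → ℝ} {x : E n} (hf : DifferentiableAt ℝ f x)
    (hg : DifferentiableAt ℝ g x) (i : Fin n) :
    pd i (fun y => f y - g y) x = pd i f x - pd i g x := by
  simp only [pd]
  rw [fderiv_fun_sub hf hg]
  rfl

theorem pd_sub {f g : E n → ℝ} (hf : Differentiable ℝ f) (hg : Differentiable ℝ g) (i : Fin n) :
    pd i (fun y => f y - g y) = fun x => pd i f x - pd i g x := by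
  funext x
  exact pd_sub_at (hf x) (hg x) i

theorem pd_mul_at {f g : E n → ℝ} {x : E n} (hf : DifferentiableAt ℝ f x)
    (hg : DifferentiableAt ℝ g x) (i : Fin n) :
    pd i (fun y => f y * g y) x = pd i f x * g x + f x * pd i g x := by
  simp only [pd]
  rw [fderiv_fun_mul hf hg]
  simp only [_root_.add_apply, _root_.smul_apply, smul_eq_mul]
  ring

theorem pd_mul {f g : E n → ℝ} (hf : Differentiable ℝ f) (hg : Differentiable ℝ g) (i : Fin n) :
    pd i (fun y => f y * g y) = fun x => pd i f x * g x + f x * pd i g x := by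
  funext x
  exact pd_mul_at (hf x) (hg x) i

theorem pd_const_mul_at {f : E n → ℝ} {x : E n} (hf : DifferentiableAt ℝ f x) (c : ℝ) (i : Fin n) :
    pd i (fun y => c * f y) x = c * pd i f x := by
  simp only [pd]
  rw [fderiv_const_mul hf]
  rfl

theorem pd_const_mul {f : E n → ℝ} (hf : Differentiable ℝ f) (c : ℝ) (i : Fin n) :
    pd i (fun y => c * f y) = fun x => c * pd i f x := by
  funext x
  exact pd_const_mul_at (hf x) c i

theorem pd_sum_at {ι : Type*} (s : Finset ι) {f : ι → E n → ℝ} {x : E n}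
    (hf : ∀ a ∈ s, DifferentiableAt ℝ (f a) x) (i : Fin n) :
    pd i (fun y => ∑ a ∈ s, f a y) x = ∑ a ∈ s, pd i (f a) x := by
  simp only [pd]
  rw [fderiv_fun_sum hf]
  simp

theorem pd_sum {ι : Type*} (s : Finset ι) {f : ι → E n → ℝ}
    (hf : ∀ a ∈ s, Differentiable ℝ (f a)) (i : Fin n) :
    pd i (fun y => ∑ a ∈ s, f a y) = fun x => ∑ a ∈ s, pd i (f a) x := by
  funext x
  exact pd_sum_at s (fun a ha => hf a ha x) i

/-- Chain rule with an outer function of one real variable. -/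
theorem pd_comp_at {φ : ℝ → ℝ} {f : E n → ℝ} {x : E n} (hφ : DifferentiableAt ℝ φ (f x))
    (hf : DifferentiableAt ℝ f x) (i : Fin n) :
    pd i (fun y => φ (f y)) x = deriv φ (f x) * pd i f x := by
  have h := (hφ.hasDerivAt.comp_hasFDerivAt x hf.hasFDerivAt)
  have h2 : fderiv ℝ (fun y => φ (f y)) x = deriv φ (f x) • fderiv ℝ f x := h.fderiv
  simp only [pd]
  rw [h2]
  rfl

theorem pd_inv_at {f : E n → ℝ} {x : E n} (hf : DifferentiableAt ℝ f x) (h0 : f x ≠ 0)
    (i : Fin n) : pd i (fun y => (f y)⁻¹) x = - pd i f x * ((f x)⁻¹ * (f x)⁻¹) := by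
  rw [pd_comp_at (φ := fun t => t⁻¹) (differentiableAt_inv h0) hf i, deriv_inv]
  field_simp

theorem pd_log_at {f : E n → ℝ} {x : E n} (hf : DifferentiableAt ℝ f x) (h0 : f x ≠ 0)
    (i : Fin n) : pd i (fun y => Real.log (f y)) x = pd i f x * (f x)⁻¹ := by
  rw [pd_comp_at (φ := Real.log) (Real.differentiableAt_log h0) hf i, Real.deriv_log]
  ring

theorem contDiff_pd {f : E n → ℝ} {k : ℕ} (hf : ContDiff ℝ (k + 1 : ℕ) f) (i : Fin n) :
    ContDiff ℝ k (pd i f) := by
  have h : ContDiff ℝ k (fderiv ℝ f) := hf.fderiv_right (by norm_cast)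
  exact h.clm_apply contDiff_const

theorem differentiable_of {f : E n → ℝ} {k : ℕ} (hf : ContDiff ℝ (k + 1 : ℕ) f) :
    Differentiable ℝ f := hf.differentiable (by simp)

theorem pd_comm {f : E n → ℝ} (hf : ContDiff ℝ (2 : ℕ) f) (i j : Fin n) :
    pd i (pd j f) = pd j (pd i f) := by
  funext x
  have h1 : ContDiff ℝ (1 : ℕ) (fderiv ℝ f) := hf.fderiv_right (by norm_cast)
  have hd : DifferentiableAt ℝ (fderiv ℝ f) x := h1.differentiable (by simp) x
  have key : ∀ a b : Fin n, pd a (pd b f) x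
      = fderiv ℝ (fderiv ℝ f) x (EuclideanSpace.single a 1) (EuclideanSpace.single b 1) := by
    intro a b
    have : fderiv ℝ (pd b f) x
        = (fderiv ℝ (fderiv ℝ f) x).flip (EuclideanSpace.single b 1) := by
      have h2 : pd b f = fun y => (fderiv ℝ f y) (EuclideanSpace.single b 1) := rfl
      rw [h2, fderiv_clm_apply hd (differentiableAt_const _)]
      simp
    simp only [pd] at this ⊢
    rw [this]
    rfl
  rw [key i j, key j i]
  have hs : IsSymmSndFDerivAt ℝ f x :=
    (hf.contDiffAt).isSymmSndFDerivAt (by simp [minSmoothness_of_isRCLikeNormedField])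
  exact hs _ _

/-! ## Iterated partial derivatives -/

theorem pdl_append (l l' : List (Fin n)) (f : E n → ℝ) :
    pdl (l ++ l') f = pdl l (pdl l' f) := by
  induction l with
  | nil => rfl
  | cons i l ih => simp only [List.cons_append, pdl, ih]

theorem pdl_snoc (l : List (Fin n)) (i : Fin n) (f : E n → ℝ) :
    pdl (l ++ [i]) f = pdl l (pd i f) := by
  rw [pdl_append]
  rfl

theorem contDiff_pdl (l : List (Fin n)) {f : E n → ℝ} {k : ℕ}
    (hf : ContDiff ℝ (k + l.length : ℕ) f) : ContDiff ℝ k (pdl l f) := by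
  induction l generalizing k with
  | nil => exact hf
  | cons i l ih =>
    apply contDiff_pd
    apply ih
    have : k + 1 + l.length = k + (i :: l).length := by simp; omega
    rw [this]
    exact hf

/-! ## The class `H0` -/

theorem H0_nonneg {K : ℝ} {f : E n → ℝ} (h : H0 K f) : 0 ≤ K := (abs_nonneg _).trans (h.1 0)

theorem H0_mono {K K' : ℝ} {f : E n → ℝ} (h : H0 K f) (hK : K ≤ K') : H0 K' f :=
  ⟨fun x => (h.1 x).trans hK, fun x y => (h.2 x y).trans
    (mul_le_mul_of_nonneg_right hK (Real.sqrt_nonneg _))⟩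

theorem H0_congr {K : ℝ} {f g : E n → ℝ} (h : H0 K f) (he : ∀ x, f x = g x) : H0 K g := by
  have : f = g := funext he
  exact this ▸ h

theorem H0_const (c : ℝ) {K : ℝ} (h : |c| ≤ K) : H0 K (fun _ : E n => c) :=
  ⟨fun _ => h, fun x y => by
    simp only [sub_self, abs_zero]
    exact mul_nonneg ((abs_nonneg _).trans h) (Real.sqrt_nonneg _)⟩

theorem H0_add {K K' : ℝ} {f g : E n → ℝ} (hf : H0 K f) (hg : H0 K' g) :
    H0 (K + K') (fun x => f x + g x) := by
  refine ⟨fun x => (abs_add_le _ _).trans (add_le_add (hf.1 x) (hg.1 x)), fun x y => ?_⟩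
  have : f x + g x - (f y + g y) = (f x - f y) + (g x - g y) := by ring
  rw [this, add_mul]
  exact (abs_add_le _ _).trans (add_le_add (hf.2 x y) (hg.2 x y))

theorem H0_neg {K : ℝ} {f : E n → ℝ} (hf : H0 K f) : H0 K (fun x => - f x) := by
  refine ⟨fun x => by rw [abs_neg]; exact hf.1 x, fun x y => ?_⟩
  have : - f x - - f y = - (f x - f y) := by ring
  rw [this, abs_neg]
  exact hf.2 x y

theorem H0_sub {K K' : ℝ} {f g : E n → ℝ} (hf : H0 K f) (hg : H0 K' g) :
    H0 (K + K') (fun x => f x - g x) := by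
  have := H0_add hf (H0_neg hg)
  simpa [sub_eq_add_neg] using this

theorem H0_mul {K K' : ℝ} {f g : E n → ℝ} (hf : H0 K f) (hg : H0 K' g) :
    H0 (2 * K * K') (fun x => f x * g x) := by
  have hK := (H0_nonneg hf)
  have hK' := (H0_nonneg hg)
  refine ⟨fun x => ?_, fun x y => ?_⟩
  · rw [abs_mul]
    have h1 : |f x| * |g x| ≤ K * K' := mul_le_mul (hf.1 x) (hg.1 x) (abs_nonneg _) hK
    nlinarith [mul_nonneg hK hK']
  · have : f x * g x - f y * g y = (f x - f y) * g x + f y * (g x - g y) := by ring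
    rw [this]
    refine (abs_add_le _ _).trans ?_
    rw [abs_mul, abs_mul]
    have hs := Real.sqrt_nonneg (dist x y)
    have h1 : |f x - f y| * |g x| ≤ (K * Real.sqrt (dist x y)) * K' :=
      mul_le_mul (hf.2 x y) (hg.1 x) (abs_nonneg _) (mul_nonneg hK hs)
    have h2 : |f y| * |g x - g y| ≤ K * (K' * Real.sqrt (dist x y)) :=
      mul_le_mul (hf.1 y) (hg.2 x y) (abs_nonneg _) hK
    linarith

theorem H0_const_mul {K : ℝ} {f : E n → ℝ} (c : ℝ) (hf : H0 K f) :
    H0 (|c| * K) (fun x => c * f x) := by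
  refine ⟨fun x => ?_, fun x y => ?_⟩
  · rw [abs_mul]
    exact mul_le_mul_of_nonneg_left (hf.1 x) (abs_nonneg _)
  · rw [← mul_sub, abs_mul, mul_assoc]
    exact mul_le_mul_of_nonneg_left (hf.2 x y) (abs_nonneg _)

theorem H0_sum {ι : Type*} (s : Finset ι) {K : ι → ℝ} {f : ι → E n → ℝ}
    (h : ∀ a ∈ s, H0 (K a) (f a)) : H0 (∑ a ∈ s, K a) (fun x => ∑ a ∈ s, f a x) := by
  classical
  induction s using Finset.induction_on with
  | empty =>
    simp only [Finset.sum_empty]
    exact H0_const 0 (by simp)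
  | insert a s ha ih =>
    have h1 := h a (Finset.mem_insert_self a s)
    have h2 := ih (fun b hb => h b (Finset.mem_insert_of_mem hb))
    have := H0_add h1 h2
    rw [Finset.sum_insert ha]
    exact H0_congr this fun x => by rw [Finset.sum_insert ha]

/-- Composition with a Lipschitz function of one variable on an interval. -/
theorem H0_comp {K L B : ℝ} {S : Set ℝ} {φ : ℝ → ℝ} {f : E n → ℝ} (hf : H0 K f)
    (hS : ∀ x, f x ∈ S) (hL : 0 ≤ L) (hb : ∀ t ∈ S, |φ t| ≤ B)
    (hφ : ∀ s ∈ S, ∀ t ∈ S, |φ s - φ t| ≤ L * |s - t|) :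
    H0 (max B (L * K)) (fun x => φ (f x)) := by
  refine ⟨fun x => (hb _ (hS x)).trans (le_max_left _ _), fun x y => ?_⟩
  calc |φ (f x) - φ (f y)| ≤ L * |f x - f y| := hφ _ (hS x) _ (hS y)
    _ ≤ L * (K * Real.sqrt (dist x y)) := mul_le_mul_of_nonneg_left (hf.2 x y) hL
    _ = L * K * Real.sqrt (dist x y) := by ring
    _ ≤ max B (L * K) * Real.sqrt (dist x y) :=
        mul_le_mul_of_nonneg_right (le_max_right _ _) (Real.sqrt_nonneg _)

theorem H0_inv {K c : ℝ} {f : E n → ℝ} (hf : H0 K f) (hc : 0 < c) (h : ∀ x, c ≤ f x) :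
    H0 (c⁻¹ + (c⁻¹ * c⁻¹) * K) (fun x => (f x)⁻¹) := by
  have h1 : ∀ x, |(f x)⁻¹| ≤ c⁻¹ := fun x => by
    rw [abs_of_pos (inv_pos.2 (hc.trans_le (h x)))]
    exact inv_anti₀ hc (h x)
  have hK := (H0_nonneg hf)
  have hcc : 0 ≤ c⁻¹ * c⁻¹ * K := by positivity
  refine ⟨fun x => (h1 x).trans (by linarith), fun x y => ?_⟩
  have hx : f x ≠ 0 := (hc.trans_le (h x)).ne'
  have hy : f y ≠ 0 := (hc.trans_le (h y)).ne'
  have : (f x)⁻¹ - (f y)⁻¹ = - ((f x)⁻¹ * (f y)⁻¹ * (f x - f y)) := by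
    field_simp
    ring
  rw [this, abs_neg, abs_mul, abs_mul]
  have h2 : |(f x)⁻¹| * |(f y)⁻¹| ≤ c⁻¹ * c⁻¹ :=
    mul_le_mul (h1 x) (h1 y) (abs_nonneg _) (by positivity)
  calc |(f x)⁻¹| * |(f y)⁻¹| * |f x - f y| ≤ (c⁻¹ * c⁻¹) * (K * Real.sqrt (dist x y)) :=
        mul_le_mul h2 (hf.2 x y) (abs_nonneg _) (by positivity)
    _ = (c⁻¹ * c⁻¹ * K) * Real.sqrt (dist x y) := by ring
    _ ≤ (c⁻¹ + c⁻¹ * c⁻¹ * K) * Real.sqrt (dist x y) := by
        apply mul_le_mul_of_nonneg_right _ (Real.sqrt_nonneg _)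
        have : 0 < c⁻¹ := inv_pos.2 hc
        linarith

theorem H0_log {K c : ℝ} {f : E n → ℝ} (hf : H0 K f) (hc : 0 < c) (h : ∀ x, c ≤ f x) :
    H0 (|Real.log c| + |Real.log K| + c⁻¹ * K) (fun x => Real.log (f x)) := by
  have hK := (H0_nonneg hf)
  have hi : 0 < c⁻¹ := inv_pos.2 hc
  have hcK : 0 ≤ c⁻¹ * K := by positivity
  refine ⟨fun x => ?_, fun x y => ?_⟩
  · have hx : 0 < f x := hc.trans_le (h x)
    have h1 : f x ≤ K := (le_abs_self _).trans (hf.1 x)
    have h2 : Real.log c ≤ Real.log (f x) := Real.log_le_log hc (h x)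
    have h3 : Real.log (f x) ≤ Real.log K := Real.log_le_log hx h1
    rw [abs_le]
    constructor
    · have := neg_abs_le (Real.log c)
      have := abs_nonneg (Real.log K)
      linarith
    · have := le_abs_self (Real.log K)
      have := abs_nonneg (Real.log c)
      linarith
  · have key : ∀ a b : ℝ, c ≤ a → c ≤ b → Real.log a - Real.log b ≤ c⁻¹ * |a - b| := by
      intro a b ha hb
      have hb0 : 0 < b := hc.trans_le hb
      have ha0 : 0 < a := hc.trans_le ha
      rw [← Real.log_div ha0.ne' hb0.ne']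
      have h1 : Real.log (a / b) ≤ a / b - 1 := Real.log_le_sub_one_of_pos (by positivity)
      have h2 : a / b - 1 = b⁻¹ * (a - b) := by field_simp
      have h3 : b⁻¹ * (a - b) ≤ b⁻¹ * |a - b| :=
        mul_le_mul_of_nonneg_left (le_abs_self _) (by positivity)
      have h4 : b⁻¹ * |a - b| ≤ c⁻¹ * |a - b| :=
        mul_le_mul_of_nonneg_right (inv_anti₀ hc hb) (abs_nonneg _)
      linarith
    have h1 : |Real.log (f x) - Real.log (f y)| ≤ c⁻¹ * |f x - f y| := by
      rw [abs_le]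
      constructor
      · have := key (f y) (f x) (h y) (h x)
        rw [abs_sub_comm] at this
        linarith
      · exact key _ _ (h x) (h y)
    calc |Real.log (f x) - Real.log (f y)| ≤ c⁻¹ * |f x - f y| := h1
      _ ≤ c⁻¹ * (K * Real.sqrt (dist x y)) := mul_le_mul_of_nonneg_left (hf.2 x y) hi.le
      _ = (c⁻¹ * K) * Real.sqrt (dist x y) := by ring
      _ ≤ _ := by
        apply mul_le_mul_of_nonneg_right _ (Real.sqrt_nonneg _)
        have := abs_nonneg (Real.log c)
        have := abs_nonneg (Real.log K)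
        linarith

end CM72
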